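import Pool.Agent.N110.CC.GStm
import Pool.Agent.N110.PA.Main

/-!
Positive entropy implies the growth of the matrices (GROW of project CC).
-/

set_option autoImplicit false
set_option linter.unusedSectionVars false
set_option linter.unusedVariables false

open FF Pool.Agent.W602.GT Pool.Agent.Y172 Pool.Agent.R887
open Pool.Agent.N110 Pool.Agent.N110.PA Pool.Agent.N110.NV Pool.Agent.N492.PA
open scoped ENNReal

namespace Pool.Agent.N27.CC

open Pool.Agent.N110.CC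

/-- finitely many generators represent all vectors with bounded coefficients -/
lemma repr_bound {Q : Type} {ρ : ℕ} (c : Q → Fin ρ → ℤ)
    (hgen : ∀ x : Fin ρ → ℤ, x ∈ AddSubgroup.closure (Set.range c)) :
    ∃ (F : Finset Q) (C0 : ℝ), 0 < C0 ∧ ∀ z : Fin ρ → ℤ, ∃ x : Q → ℤ,
      z = ∑ P ∈ F, x P • c P ∧ ∑ P ∈ F, |(x P : ℝ)| ≤ C0 * ∑ i, |(z i : ℝ)| := by
  classical
  have h1 : ∀ j : Fin ρ, ∃ l : Q →₀ ℤ, (l.sum fun P a => a • c P) = Pi.single j 1 := by
    intro j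
    have h2 := hgen (Pi.single j 1)
    rw [← Submodule.span_int_eq_addSubgroupClosure] at h2
    have h3 : (Pi.single j 1 : Fin ρ → ℤ) ∈ Submodule.span ℤ (Set.range c) := h2
    rw [← Finsupp.range_linearCombination] at h3
    obtain ⟨l, hl⟩ := h3
    exact ⟨l, by rw [← hl, Finsupp.linearCombination_apply]⟩
  choose l hl using h1
  obtain ⟨F, hF⟩ : ∃ F : Finset Q, F = Finset.univ.biUnion fun j => (l j).support := ⟨_, rfl⟩
  have hlF : ∀ j, (Pi.single j 1 : Fin ρ → ℤ) = ∑ P ∈ F, l j P • c P := by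
    intro j
    rw [← hl j, Finsupp.sum]
    refine Finset.sum_subset ?_ ?_
    · rw [hF]
      exact Finset.subset_biUnion_of_mem (fun j => (l j).support) (Finset.mem_univ j)
    · intro P _ hP
      rw [Finsupp.notMem_support_iff.1 hP, zero_smul]
  refine ⟨F, ∑ j, ∑ P ∈ F, |(l j P : ℝ)| + 1, by
    have : 0 ≤ ∑ j, ∑ P ∈ F, |(l j P : ℝ)| :=
      Finset.sum_nonneg fun _ _ => Finset.sum_nonneg fun _ _ => abs_nonneg _
    linarith, fun z => ⟨fun P => ∑ j, z j * l j P, ?_, ?_⟩⟩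
  · have e1 : z = ∑ j, z j • (Pi.single j 1 : Fin ρ → ℤ) := by
      funext i
      rw [Finset.sum_apply]
      simp [Pi.single_apply]
    calc z = ∑ j, z j • (Pi.single j 1 : Fin ρ → ℤ) := e1
      _ = ∑ j, z j • ∑ P ∈ F, l j P • c P := Finset.sum_congr rfl fun j _ => by rw [hlF j]
      _ = ∑ j, ∑ P ∈ F, (z j * l j P) • c P := Finset.sum_congr rfl fun j _ => by
          rw [Finset.smul_sum]
          exact Finset.sum_congr rfl fun P _ => by rw [smul_smul]
      _ = ∑ P ∈ F, (∑ j, z j * l j P) • c P := by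
          rw [Finset.sum_comm]
          exact Finset.sum_congr rfl fun P _ => by rw [Finset.sum_smul]
  · have e0 : ∀ j, 0 ≤ ∑ P ∈ F, |(l j P : ℝ)| := fun j => Finset.sum_nonneg fun _ _ => abs_nonneg _
    calc ∑ P ∈ F, |((∑ j, z j * l j P : ℤ) : ℝ)|
        ≤ ∑ P ∈ F, ∑ j, |(z j : ℝ)| * |(l j P : ℝ)| := by
          refine Finset.sum_le_sum fun P _ => ?_
          push_cast
          refine (Finset.abs_sum_le_sum_abs _ _).trans (le_of_eq ?_)
          exact Finset.sum_congr rfl fun j _ => abs_mul _ _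
      _ = ∑ j, |(z j : ℝ)| * ∑ P ∈ F, |(l j P : ℝ)| := by
          rw [Finset.sum_comm]
          exact Finset.sum_congr rfl fun j _ => by rw [Finset.mul_sum]
      _ ≤ ∑ j, |(z j : ℝ)| * (∑ j, ∑ P ∈ F, |(l j P : ℝ)| + 1) := by
          refine Finset.sum_le_sum fun j _ => mul_le_mul_of_nonneg_left ?_ (abs_nonneg _)
          have := Finset.single_le_sum (f := fun j => ∑ P ∈ F, |(l j P : ℝ)|)
            (fun j _ => e0 j) (Finset.mem_univ j)
          linarith
      _ = (∑ j, ∑ P ∈ F, |(l j P : ℝ)| + 1) * ∑ i, |(z i : ℝ)| := by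
          rw [← Finset.sum_mul, mul_comm]

/-- the entries of the image of a vector -/
lemma mulVec_bound {ρ : ℕ} (A : Matrix (Fin ρ) (Fin ρ) ℤ) (x : Fin ρ → ℤ) (j : Fin ρ) :
    |((A.mulVec x j : ℤ) : ℝ)| ≤ (∑ k, |(x k : ℝ)|) * ∑ i, ∑ k, |(A i k : ℝ)| := by
  have h0 : 0 ≤ ∑ k, |(x k : ℝ)| := Finset.sum_nonneg fun _ _ => abs_nonneg _
  have h1 : ∀ i, 0 ≤ ∑ k, |(A i k : ℝ)| := fun i => Finset.sum_nonneg fun _ _ => abs_nonneg _
  calc |((A.mulVec x j : ℤ) : ℝ)| = |∑ k, (A j k : ℝ) * (x k : ℝ)| := by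
        rw [Matrix.mulVec, dotProduct]
        push_cast
        rfl
    _ ≤ ∑ k, |(A j k : ℝ)| * |(x k : ℝ)| := by
        refine (Finset.abs_sum_le_sum_abs _ _).trans (le_of_eq ?_)
        exact Finset.sum_congr rfl fun k _ => abs_mul _ _
    _ ≤ ∑ k, |(A j k : ℝ)| * ∑ k, |(x k : ℝ)| := by
        refine Finset.sum_le_sum fun k _ => mul_le_mul_of_nonneg_left ?_ (abs_nonneg _)
        exact Finset.single_le_sum (f := fun k => |(x k : ℝ)|) (fun _ _ => abs_nonneg _)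
          (Finset.mem_univ k)
    _ = (∑ k, |(x k : ℝ)|) * ∑ k, |(A j k : ℝ)| := by
        rw [← Finset.sum_mul, mul_comm]
    _ ≤ (∑ k, |(x k : ℝ)|) * ∑ i, ∑ k, |(A i k : ℝ)| := by
        refine mul_le_mul_of_nonneg_left ?_ h0
        exact Finset.single_le_sum (f := fun i => ∑ k, |(A i k : ℝ)|) (fun i _ => h1 i)
          (Finset.mem_univ j)

/-- a nonzero integral matrix has a large entry -/
lemma one_le_sum {ρ : ℕ} (hρ : 0 < ρ) (A B : Matrix (Fin ρ) (Fin ρ) ℤ) (h : A * B = 1) :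
    1 ≤ ∑ i, ∑ j, |(A i j : ℝ)| := by
  by_contra hlt
  rw [not_le] at hlt
  have h1 : ∀ i, 0 ≤ ∑ k, |(A i k : ℝ)| := fun i => Finset.sum_nonneg fun _ _ => abs_nonneg _
  have h2 : A = 0 := by
    ext i j
    have e1 : |(A i j : ℝ)| < 1 := by
      refine lt_of_le_of_lt ?_ hlt
      refine le_trans ?_ (Finset.single_le_sum (f := fun i => ∑ k, |(A i k : ℝ)|)
        (fun i _ => h1 i) (Finset.mem_univ i))
      exact Finset.single_le_sum (f := fun k => |(A i k : ℝ)|) (fun _ _ => abs_nonneg _)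
        (Finset.mem_univ j)
    have e2 : |A i j| < 1 := by exact_mod_cast e1
    have e3 : A i j = 0 := by
      rw [abs_lt] at e2
      omega
    rw [e3]
    rfl
  rw [h2, zero_mul] at h
  have h3 := congrFun (congrFun h ⟨0, hρ⟩) ⟨0, hρ⟩
  rw [Matrix.one_apply_eq, Matrix.zero_apply] at h3
  exact absurd h3 (by norm_num)

theorem leafGROW : S_GROW := by
  classical
  intro K _ _ N n ρ r y hy hn hn0 hr hρ c hc φ hφ hPA hpos M hM0 hM hMc
  obtain ⟨c0, δ, hc0, hδ, hlow⟩ := growthN hy hn hn0 ⟨ρ, c, hc.numClasses⟩ hr hφ hPA hpos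
  obtain ⟨i, hi⟩ := hy.ne
  obtain ⟨Hy, hHe, hH⟩ := exists_hyp hy hi
  obtain ⟨F, C0, hC0, hF⟩ := repr_bound (fun P : QQ y => c P.1) (by
    intro x
    refine AddSubgroup.closure_mono ?_ (hc.generate x)
    rintro z ⟨P, hP, rfl⟩
    exact ⟨⟨P, hP⟩, rfl⟩)
  obtain ⟨C, hC, hup⟩ := upperN (M := M) (F := F) Pool.Agent.N273.PA.up hy hn hn0 hi hHe hH
    hc.numClasses hφ hPA hC0 (fun P => ⟨∑ k, |(c P.1 k : ℝ)|, fun v j => by
      have e1 : c (pim hφ hPA v P).1 = (M v).mulVec (c P.1) := (hMc v P.1 P.2).symm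
      rw [e1]
      exact mulVec_bound (M v) (c P.1) j⟩) (fun D => hF _)
  have hS : ∀ v, 1 ≤ ∑ i, ∑ j, |(M v i j : ℝ)| := fun v =>
    one_le_sum hρ (M v) (M (-v)) (by rw [← hM, add_neg_cancel, hM0])
  have key : ∀ v, c0 * Real.exp (δ * ∑ i, |(v i : ℝ)|) ≤
      C * (∑ i, ∑ j, |(M v i j : ℝ)| + 1) := by
    intro v
    have h1 := (hlow v).trans (hup v)
    refine (ENNReal.ofReal_le_ofReal_iff ?_).1 h1
    have := hS v
    positivity
  have hCpos : 0 < C := by
    rcases hC.eq_or_lt with h | h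
    · exfalso
      have h1 := key 0
      rw [← h, zero_mul] at h1
      have h2 : 0 < c0 * Real.exp (δ * ∑ i, |(((0 : Fin r → ℤ) i : ℤ) : ℝ)|) :=
        mul_pos hc0 (Real.exp_pos _)
      linarith
    · exact h
  refine ⟨c0 / (2 * C), δ, by positivity, hδ, fun v => ?_⟩
  have h1 := key v
  have h2 := hS v
  rw [div_mul_eq_mul_div, div_le_iff₀ (by positivity)]
  nlinarith

end Pool.Agent.N27.CC
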